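import Pool.Agent.Helper42.SG.GoalsB

/-!
# Project SG (MP_a41896_nt), part 2: the auxiliary function (AUXC), captain helper77

`z = (a_1, b_1)` is an exceptional point, `x_0 = (a_0, b_0)` a point on the curve `f(x(a_0), x(b_0)) = 0`.
Convention: `X 0, X 1` are the `x`-coordinates of `z`, `X 2, X 3` those of `x_0` (`Ψ` likewise);
one block (`n = 1`), `δ = 1`, `M` general, `q = 4 ^ e`.

Every goal is independent (the other goals are hypotheses).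
-/

set_option autoImplicit false

open MvPolynomial

namespace Pool.Agent.Helper77.SGC

open WeierstrassCurve Height
open Pool.Agent.Helper29.BL Pool.Agent.Helper92.Ru Pool.Agent.Helper42.SG

noncomputable section

/-! ## The statement -/

/-- the pair `(x, y)` as an evaluation point -/
def pr {A : Type} (x y : A) : Fin 2 → A := fun i => if i = 0 then x else y

/-- the bound in the key inequality of part 2, drop `k0 q`; `a_h ≥ 1` bounds for `X_h` -/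
def keyC (M k0 e : ℕ) (a : ℕ → ℝ) : ℝ :=
  (a 0 * a 1) ^ (2 * 4 ^ e * M + 4 ^ e) * (a 2 * a 3) ^ (2 * M) /
    (min (a 0) (a 1)) ^ (k0 * 4 ^ e)

/-- the key inequality of part 2 in every norm frame, for every law vector, on the curve `f = 0` -/
def KEYC {K : Type} [Field K] (W : ℕ → Affine K) (M k0 e : ℕ) (f : MvPolynomial (Fin 2) K)
    (c : Idx 1 M 1 (fun _ => e) → K) (B : AbsoluteValue K ℝ → ℝ) : Prop :=
  ∀ (v : AbsoluteValue K ℝ) (A : Type) [CommRing A] [Algebra K A] (N : A → ℝ → Prop), NFr v N →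
    ∀ (X Ψ : ℕ → A) (a : ℕ → ℝ) (s b : ℝ), OnW W 1 X Ψ → aeval (pr (X 2) (X 3)) f = 0 →
      (∀ h < 4, 1 ≤ a h) → 1 ≤ b → (∀ h < 4, N (X h) (a h)) →
      (∀ h < 4, N (Ψ h) (b * a h ^ 2)) → (∀ α, v (c α) ≤ s) → ∀ lam : ℕ → Bool,
      N (Paux (mapW A W) 1 M 1 (fun _ => e) (fun α => algebraMap K A (c α)) lam X Ψ)
        (s * b ^ 4 * B v ^ (4 ^ e) * keyC M k0 e a)

/-- AUXC: the auxiliary function of part 2 -/
def AUXC : Prop :=
  ∀ (K : Type) [Field K] [NumberField K] (W : ℕ → Affine K) (D M k0 : ℕ), 1 ≤ k0 →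
    128 * D * k0 ^ 2 ≤ M →
    ∃ (C : ℝ) (B : AbsoluteValue K ℝ → ℝ), PlC B ∧ 0 ≤ C ∧
      ∀ (e : ℕ) (f : MvPolynomial (Fin 2) K), f ≠ 0 → (∀ i, f.degreeOf i ≤ D) →
      ∃ c : Idx 1 M 1 (fun _ => e) → K, c ≠ 0 ∧ (∀ α, IsIntegral ℤ (c α)) ∧
        (∀ α, NumberField.house (c α) ≤ Real.exp (C * (4 ^ e + Real.log (PH f)))) ∧
        KEYC W M k0 e f c B

/-! ## The coefficients -/

/-- the arrays of `ECOEF` for fixed `e`, `M`: `G l m μ i g` -/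
structure Arr {K : Type} [Field K] (W : Affine K) (B : AbsoluteValue K ℝ → ℝ) (D e M : ℕ)
    (G : Bool → ℕ → Fin 2 → ℕ → ℕ → K) : Prop where
  deg : ∀ l m, m ≤ M → ∀ μ i g, G l m μ i g ≠ 0 →
    i + 2 * μ.val ≤ 2 * 4 ^ e * M ∧ g + 2 * μ.val ≤ 2 * M
  bd : ∀ l m, m ≤ M → ∀ v μ i g, v (G l m μ i g) ≤ B v ^ (4 ^ e * M)
  int : ∀ l m, m ≤ M → ∀ μ i g, IsIntegral ℤ ((D : K) ^ (4 ^ e * M) * G l m μ i g)
  law : ∀ l m, m ≤ M → ∀ (A : Type) [CommRing A] [Algebra K A] (x c η : A),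
    η ^ 2 = Bf (W.map (algebraMap K A)) x * Bf (W.map (algebraMap K A)) c →
    (Pool.Agent.Helper42.SG.law (W.map (algebraMap K A)) e l x c η).1 ^ (M - m) *
      (Pool.Agent.Helper42.SG.law (W.map (algebraMap K A)) e l x c η).2 ^ m =
    ∑ μ : Fin 2, ∑ i ∈ Finset.range (2 * 4 ^ e * M + 1), ∑ g ∈ Finset.range (2 * M + 1),
      algebraMap K A (G l m μ i g) * (η ^ μ.val * x ^ i * c ^ g)

/-- the coefficient of `η^μ X^j X_0^g` in `X^i (L_1)^(M-m) (L_2)^m` -/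
def sh {K : Type} [Field K] (G : Bool → ℕ → Fin 2 → ℕ → ℕ → K) (l : Bool) (μ : Fin 2)
    (j g i m : ℕ) : K := if i ≤ j then G l m μ (j - i) g else 0

/-- the coefficient of `η_0^μ η_1^μ' X_0^j X_1^j' X_2^g X_3^g'` in `P^λ` -/
def cf {K : Type} [Field K] (M e : ℕ) (G G' : Bool → ℕ → Fin 2 → ℕ → ℕ → K)
    (c : Idx 1 M 1 (fun _ => e) → K) (l l' : Bool) (μ μ' : Fin 2) (j j' g g' : ℕ) : K :=
  ∑ α : Idx 1 M 1 (fun _ => e), c α *
    (sh G l μ j g (α.1 ⟨0, by norm_num⟩).1.val (α.1 ⟨0, by norm_num⟩).2.val *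
      sh G' l' μ' j' g' (α.1 ⟨1, by norm_num⟩).1.val (α.1 ⟨1, by norm_num⟩).2.val)

/-- `N0 = 2qM + q`, the maximal degree in `X_0`, `X_1` -/
def N0 (M e : ℕ) : ℕ := 2 * 4 ^ e * M + 4 ^ e

/-- the forbidden indices -/
def Forb (M k0 e : ℕ) (μ μ' : Fin 2) (j j' : ℕ) : Prop :=
  j + 2 * μ.val ≤ N0 M e ∧ j' + 2 * μ'.val ≤ N0 M e ∧
    2 * N0 M e < (j + 2 * μ.val) + (j' + 2 * μ'.val) + k0 * 4 ^ e

/-- the conditions on `c` -/
def Cond {K : Type} [Field K] (M k0 e : ℕ) (G G' : Bool → ℕ → Fin 2 → ℕ → ℕ → K)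
    (f : MvPolynomial (Fin 2) K) (c : Idx 1 M 1 (fun _ => e) → K) : Prop :=
  ∀ l l' μ μ' j j', Forb M k0 e μ μ' j j' →
    f ∣ ∑ g ∈ Finset.range (2 * M + 1), ∑ g' ∈ Finset.range (2 * M + 1),
      C (cf M e G G' c l l' μ μ' j j' g g') * (X 0 ^ g * X 1 ^ g')

/-! ## Goals -/

/-- **SCAL** (scaling `f` to integral coefficients).
PROOF. `s0 ∈ f.support`, `y s = coeff s f / coeff s0 f`. `H = PH f = mulHeight y` on the support
(`mulHeight_smul_eq_mulHeight`), `1 ≤ H`; `mulHeight₁ (y s) ≤ H` for `s` in the support, because `y s0 = 1` and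
`y s` are two entries (compare all places: `NumberField.mulHeight_eq`, `mulHeight₁_eq`; or the general lemmas of
Mathlib on heights of tuples `mulHeight_comp_le`; see also `Helper29.BL.PS`, `Helper96.Ru.HeightLocal`).
`NumberField.exists_nat_le_mulHeight₁`: `n s ≠ 0`, `n s ≤ H`, `n s * y s` integral. `n = ∏_(s ∈ support) n s ≤ H^((D+1)^2)`
(the support has at most `(D+1)^2` elements: it injects into `Fin (D+1) × Fin (D+1)`), `λ = n / coeff s0 f`: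
`λ * coeff s f = n * y s` is integral, `house (n * y s) = n * house (y s)` (`house_nat_mul`), and
`house y ≤ mulHeight₁ y`: for an embedding `φ` with place `v`: `‖φ y‖ = v y ≤ (max (v y) 1)^mult ≤ mulHeight₁ y`,
all the other factors are `≥ 1`. For `s` not in the support both sides are `0 ≤ ..`. -/
def SCAL : Prop :=
  ∀ (K : Type) [Field K] [NumberField K] (D : ℕ) (f : MvPolynomial (Fin 2) K), f ≠ 0 →
    (∀ i, f.degreeOf i ≤ D) → ∃ r : K, r ≠ 0 ∧ ∀ s, IsIntegral ℤ (r * coeff s f) ∧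
      NumberField.house (r * coeff s f) ≤ PH f ^ ((D + 1) ^ 2 + 1)

/-- **SIGR** (Siegel's lemma with a bounded exponent).
PROOF. As `Pool.Agent.Helper68.Ru.siegel` (`Helper68/Ru/Siegel.lean`), from `siegel_aux`: the exponent
`card α / (card β - card α)` is `≤ ρ`. If `a = 0` take a standard basis vector. -/
def SIGR : Prop :=
  ∀ (K : Type) [Field K] [NumberField K], ∃ c : ℝ, 1 ≤ c ∧
    ∀ (α β : Type) [Fintype α] [Fintype β] (a : Matrix α β (NumberField.RingOfIntegers K))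
      (A : ℝ) (ρ : ℕ), 1 ≤ A → Fintype.card α < Fintype.card β →
      Fintype.card α ≤ ρ * (Fintype.card β - Fintype.card α) →
      (∀ i j, NumberField.house ((a i j : NumberField.RingOfIntegers K) : K) ≤ A) →
      ∃ ξ : β → NumberField.RingOfIntegers K, ξ ≠ 0 ∧ a.mulVec ξ = 0 ∧
        ∀ l, NumberField.house ((ξ l : NumberField.RingOfIntegers K) : K) ≤
          c * (c * (Fintype.card β : ℝ) * A) ^ ρ

/-- **HOUS** (houses from local bounds).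
PROOF. For `φ : K →+* ℂ` let `v_φ` be the absolute value `x ↦ ‖φ x‖` (`NumberField.place φ`).
`b0 = ∑_φ B v_φ + 1` (or the maximum), `house x = sup_φ ‖φ x‖` (`NumberField.house_eq_sup'`). -/
def HOUS : Prop :=
  ∀ (K : Type) [Field K] [NumberField K] (B : AbsoluteValue K ℝ → ℝ), (∀ v, 1 ≤ B v) →
    ∃ b0 : ℝ, 1 ≤ b0 ∧ ∀ (x : K) (k : ℕ), (∀ v, v x ≤ B v ^ k) → NumberField.house x ≤ b0 ^ k

/-- **SIEC** (the conditions can be solved). Hypotheses allowed: SCAL, SIGR, HOUS.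
PROOF. `q = 4^e`. Let `r` be from SCAL, `E = D0^(qM) D1^(qM)`. The index type of the equations is
`T × Fin (2M+1) × Fin (2M+1)`, `T = Bool × Bool × Fin 2 × Fin 2 × Fin (k0 q) × Fin (k0 q)`; `t = (l, l', μ, μ', p, p')`
stands for `j = N0 - 2μ - p`, `j' = N0 - 2μ' - p'` (natural subtraction; `Forb` means
`j = N0 - 2μ - p`, `j' = N0 - 2μ' - p'` with `p + p' < k0 q`, so all forbidden indices occur). The unknowns are
`Idx 1 M 1 (fun _ => e) ⊕ T × Fin (2M+1-D) × Fin (2M+1-D)` (`c` and the coefficients of the quotients `h_t`),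
the equation `(t, g, g')` is
`∑_α c_α E sh G .. sh G' .. - ∑_(a,b) h_t(a,b) r f_(g-a, g'-b) = 0` (`f_(x,y)` the coefficient of `X_0^x X_1^y`, zero if `a > g` or
`b > g'`). Entries: integral (`Arr.int`; SCAL), of house `≤ A := exp(C1 q) * PH f^((D+1)^2+1)`: `E G G'` has local absolute values
`≤ (|D0| |D1| B0 B1)^(qM)` (`v (D0) ≤ D0`; HOUS for `B v = D0 D1 B0 v B1 v`).
Number of rows `16 (k0 q)^2 (2M+1)^2`, of unknowns `q^2 (M+1)^2 + 16 (k0 q)^2 (2M+1-D)^2`; the difference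
unknowns - rows is `≥ q^2 (M+1)^2 - 16 k0^2 q^2 2D(2M+1) ≥ q^2 (M+1)^2 / 2` (`64 k0^2 D (2M+1) ≤ 128 k0^2 D (M+1) ≤ (M+1)^2`, as
`128 k0^2 D ≤ M`; also `D ≤ M`), and rows `≤ 64 k0^2 q^2 (M+1)^2 ≤ 128 k0^2 (unknowns - rows)`. SIGR with `ρ = 128 k0^2`:
a solution `(c, h) ≠ 0` of house `≤ c1 (c1 * unknowns * A)^ρ ≤ exp(C (q + log PH f))` (`unknowns ≤ C2 q^2 ≤ exp (C3 q)`;
`0 ≤ log PH f`). The equations say (in `K[X_0, X_1]`; every monomial of `f h_t` has exponents `≤ 2M`)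
`E * ∑_(g,g') cf(..)(g,g') X_0^g X_1^g' = r f h_t`, so `f ∣ ∑ ..` (`E ≠ 0`). If `c = 0` then `r f h_t = 0`, so `h_t = 0` for all `t`,
a contradiction; so `c ≠ 0`. -/
def SIEC : Prop :=
  ∀ (K : Type) [Field K] [NumberField K] (W : ℕ → Affine K) (B0 B1 : AbsoluteValue K ℝ → ℝ)
    (D0 D1 : ℕ), (∀ v, 1 ≤ B0 v) → (∀ v, 1 ≤ B1 v) → 0 < D0 → 0 < D1 → ∀ D M k0 : ℕ, 1 ≤ k0 →
    128 * D * k0 ^ 2 ≤ M → ∃ C : ℝ, 0 ≤ C ∧
      ∀ (e : ℕ) (G G' : Bool → ℕ → Fin 2 → ℕ → ℕ → K), Arr (W 0) B0 D0 e M G →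
      Arr (W 1) B1 D1 e M G' → ∀ f : MvPolynomial (Fin 2) K, f ≠ 0 → (∀ i, f.degreeOf i ≤ D) →
      ∃ c : Idx 1 M 1 (fun _ => e) → K, c ≠ 0 ∧ (∀ α, IsIntegral ℤ (c α)) ∧
        (∀ α, NumberField.house (c α) ≤ Real.exp (C * (4 ^ e + Real.log (PH f)))) ∧
        Cond M k0 e G G' f c

/-- **EXPC** (expansion of `P^λ`). No hypotheses.
PROOF. `Paux .. = ∑_α c α * (∏_(h : Fin 2) X_h^(l_h) (L_h)^(M-m_h, m_h))` (`δ = 1`: the last product is `1`), and `Arr.law`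
for `h = 0` (`x = X 0`, `c = X 2`, `η = Ψ 0 Ψ 2`; `η^2 = Bf Bf` by `OnW` for `0`, `2`) and `h = 1` (`X 1`, `X 3`, `Ψ 1 Ψ 3`). For each `h`
`x^i0 ∑_(μ, i ≤ 2qM, g) G(μ,i,g) η^μ x^i c^g = ∑_(μ, j ≤ N0, g) sh(μ,j,g;i0,m) η^μ x^j c^g` (`j = i + i0`, `i0 < q`; `sh = 0` for `j < i0` and
for `j - i0 > 2qM` by `Arr.deg`). Multiply the two sums and exchange the order of the sums. -/
def EXPC : Prop :=
  ∀ (K : Type) [Field K] (W : ℕ → Affine K) (B0 B1 : AbsoluteValue K ℝ → ℝ) (D0 D1 e M : ℕ)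
    (G G' : Bool → ℕ → Fin 2 → ℕ → ℕ → K), Arr (W 0) B0 D0 e M G → Arr (W 1) B1 D1 e M G' →
    ∀ (c : Idx 1 M 1 (fun _ => e) → K) (A : Type) [CommRing A] [Algebra K A] (X Ψ : ℕ → A),
      OnW W 1 X Ψ → ∀ lam : ℕ → Bool,
      Paux (mapW A W) 1 M 1 (fun _ => e) (fun α => algebraMap K A (c α)) lam X Ψ =
        ∑ μ : Fin 2, ∑ μ' : Fin 2, ∑ j ∈ Finset.range (N0 M e + 1),
          ∑ j' ∈ Finset.range (N0 M e + 1),
            ((Ψ 0 * Ψ 2) ^ μ.val * (Ψ 1 * Ψ 3) ^ μ'.val * (X 0 ^ j * X 1 ^ j')) *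
              ∑ g ∈ Finset.range (2 * M + 1), ∑ g' ∈ Finset.range (2 * M + 1),
                algebraMap K A (cf M e G G' c (lam 0) (lam 1) μ μ' j j' g g') *
                  (X 2 ^ g * X 3 ^ g')

/-- **MON** (the monomials that are not forbidden). No hypotheses.
PROOF. By symmetry `a' ≤ a`, `min a a' = a'`. `x + x' + k ≤ 2 n`, `x, x' ≤ n`. If `x' + k ≤ n`: clear. Otherwise let
`E = x' + k - n ≤ n - x`: `a^x a'^(x'+k) = a^x a'^E a'^n ≤ a^x a^(n-x) a'^n`. -/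
def MON : Prop :=
  ∀ (a a' : ℝ) (x x' k n : ℕ), 1 ≤ a → 1 ≤ a' → x ≤ n → x' ≤ n → x + x' + k ≤ 2 * n →
    a ^ x * a' ^ x' ≤ (a * a') ^ n / (min a a') ^ k

/-- **KEYP** (the key inequality). Hypotheses allowed: EXPC, MON.
PROOF. First for a norm frame `N` at `v`: `N 0 0`, `N 1 1` (`const`), `N f T → N (f^k) (T^k)`, and for a finite sum
`(∀ i ∈ S, N (f i) T) → 0 ≤ T → N (∑ f i) (cst v S.card * T)` (induction; `max` if `v` is nonarchimedean).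
EXPC. For fixed `(μ, μ', j, j')` with `Forb` the inner sum is `aeval (X 2, X 3) (∑ C cf X_0^g X_1^g') = aeval f * aeval h = 0`. Otherwise, a
term `cf (Ψ_0 Ψ_2)^μ (Ψ_1 Ψ_3)^μ' X_0^j X_1^j' X_2^g X_3^g'` with `cf ≠ 0` has, by `Arr.deg`, `j + 2μ ≤ N0`, `j' + 2μ' ≤ N0` (`sh ≠ 0`, `i < q`),
`g + 2μ ≤ 2M`, `g' + 2μ' ≤ 2M`; not forbidden: `(j + 2μ) + (j' + 2μ') + k0 q ≤ 2 N0`. Its norm is
`≤ v(cf) (b a_0² b a_2²)^μ (b a_1² b a_3²)^μ' a_0^j a_1^j' a_2^g a_3^g' ≤ v(cf) b^4 (a_2 a_3)^(2M) a_0^(j+2μ) a_1^(j'+2μ')`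
`≤ v(cf) b^4 keyC` by MON (`x = j + 2μ`, `x' = j' + 2μ'`, `n = N0`, `k = k0 q`), and
`v(cf) ≤ cst v (q^2 (M+1)^2) * s * (B0 v)^(qM) * (B1 v)^(qM)` (`Arr.bd`; a finite sum over `Idx`, also a norm frame: `A = K`,
`N x T = v x ≤ T`). The number of terms is `4 (N0+1)^2 (2M+1)^2`, `N0 + 1 ≤ q (2M+2)`, so altogether the factor is
`cst v (4 q^4 (2M+2)^2 (2M+1)^2 (M+1)^2)` and `q^4 = 256^e ≤ 256^q`: take
`B v = cst v (256 * 4 (2M+2)^2 (2M+1)^2 (M+1)^2) * (B0 v * B1 v)^M` (`PlC`: `FS_log_cst`, `FS.add`, `FS.const_mul` of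
`Helper29/BL/PS.lean`). -/
def KEYP : Prop :=
  ∀ (K : Type) [Field K] [NumberField K] (W : ℕ → Affine K) (B0 B1 : AbsoluteValue K ℝ → ℝ)
    (D0 D1 M k0 : ℕ), PlC B0 → PlC B1 → ∃ B : AbsoluteValue K ℝ → ℝ, PlC B ∧
      ∀ (e : ℕ) (G G' : Bool → ℕ → Fin 2 → ℕ → ℕ → K), Arr (W 0) B0 D0 e M G →
      Arr (W 1) B1 D1 e M G' → ∀ (f : MvPolynomial (Fin 2) K)
      (c : Idx 1 M 1 (fun _ => e) → K), Cond M k0 e G G' f c → KEYC W M k0 e f c B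

end

end Pool.Agent.Helper77.SGC
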