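import Pool.Agent.Helper77.SGC.SIEC
import Pool.Agent.Helper42.SG.GoalsG
import Pool.Agent.Helper12.SGB.All
import Pool.Agent.Helper86.SGC.SCAL
import Pool.Agent.Helper39.SGC.SIGR
import Pool.Agent.Helper24.SGC.HOUS
import Pool.Agent.Helper96.SGC.MON
import Pool.Agent.Helper13.SGC.EXPC
import Pool.Agent.Helper30.SGC.KEYP

/-!
Project SG (MP_a41896_nt), part 2: the auxiliary function, assembly (helper77).
-/

set_option autoImplicit false

open MvPolynomial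

namespace Pool.Agent.Helper77.SGC

open WeierstrassCurve Height
open Pool.Agent.Helper29.BL Pool.Agent.Helper92.Ru Pool.Agent.Helper42.SG

/-- the arrays of ECOEF -/
theorem exists_arr (K : Type) [Field K] [NumberField K] (W : Affine K) :
    ∃ (B : AbsoluteValue K ℝ → ℝ) (D : ℕ), PlC B ∧ 0 < D ∧ ∀ e M,
      ∃ G : Bool → ℕ → Fin 2 → ℕ → ℕ → K, Arr W B D e M G := by
  obtain ⟨B, D, hB, hD, h⟩ := Pool.Agent.Helper12.SGB.th_ECOEF K W
  refine ⟨B, D, hB, hD, fun e M => ?_⟩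
  have h' : ∀ (l : Bool) (m : ℕ), ∃ G : Fin 2 → ℕ → ℕ → K, m ≤ M →
      (∀ μ i g, G μ i g ≠ 0 → i + 2 * μ.val ≤ 2 * 4 ^ e * M ∧ g + 2 * μ.val ≤ 2 * M) ∧
      (∀ v μ i g, v (G μ i g) ≤ B v ^ (4 ^ e * M)) ∧
      (∀ μ i g, IsIntegral ℤ ((D : K) ^ (4 ^ e * M) * G μ i g)) ∧
      ∀ (A : Type) [CommRing A] [Algebra K A] (x c η : A),
        η ^ 2 = Bf (W.map (algebraMap K A)) x * Bf (W.map (algebraMap K A)) c →
        (Pool.Agent.Helper42.SG.law (W.map (algebraMap K A)) e l x c η).1 ^ (M - m) *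
          (Pool.Agent.Helper42.SG.law (W.map (algebraMap K A)) e l x c η).2 ^ m =
        ∑ μ : Fin 2, ∑ i ∈ Finset.range (2 * 4 ^ e * M + 1), ∑ g ∈ Finset.range (2 * M + 1),
          algebraMap K A (G μ i g) * (η ^ μ.val * x ^ i * c ^ g) := by
    intro l m
    by_cases hm : m ≤ M
    · obtain ⟨G, hG⟩ := h e M m l hm
      exact ⟨G, fun _ => hG⟩
    · exact ⟨fun _ _ _ => 0, fun h => absurd h hm⟩
  choose G hG using h'
  exact ⟨G, fun l m hm => (hG l m hm).1, fun l m hm => (hG l m hm).2.1,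
    fun l m hm => (hG l m hm).2.2.1, fun l m hm => (hG l m hm).2.2.2⟩

/-- **AUXC** -/
theorem auxc' : AUXC := by
  intro K _ _ W D M k0 hk hM
  obtain ⟨B0, D0, hB0, hD0, hA0⟩ := exists_arr K (W 0)
  obtain ⟨B1, D1, hB1, hD1, hA1⟩ := exists_arr K (W 1)
  obtain ⟨C, hC, hS⟩ := siec Pool.Agent.Helper86.SGC.scal Pool.Agent.Helper39.SGC.sigr
    Pool.Agent.Helper24.SGC.hous K W B0 B1 D0 D1 hB0.one_le hB1.one_le hD0 hD1 D M k0 hk hM
  obtain ⟨B, hB, hK⟩ := Pool.Agent.Helper30.SGC.keyp Pool.Agent.Helper13.SGC.expc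
    Pool.Agent.Helper96.SGC.mon K W B0 B1 D0 D1 M k0 hB0 hB1
  refine ⟨C, B, hB, hC, fun e f hf hfD => ?_⟩
  obtain ⟨G, hG⟩ := hA0 e M
  obtain ⟨G', hG'⟩ := hA1 e M
  obtain ⟨c, hc0, hci, hch, hcc⟩ := hS e G G' hG hG' f hf hfD
  exact ⟨c, hc0, hci, hch, hK e G G' hG hG' f c hcc⟩

/-! ## The general form -/

theorem div_two {h : ℕ} (hh : h < 2) : h / 2 = 0 := Nat.div_eq_of_lt hh

/-- the index types for `e` and the constant function `e 0` -/
def idxE (M : ℕ) (e : ℕ → ℕ) : Idx 1 M 1 e ≃ Idx 1 M 1 (fun _ => e 0) :=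
  Equiv.prodCongr (Equiv.piCongrRight fun h => Equiv.prodCongr
    (finCongr (by rw [div_two h.isLt])) (Equiv.refl _)) (Equiv.refl _)

theorem idxE_val (M : ℕ) (e : ℕ → ℕ) (α : Idx 1 M 1 e) (h : Fin (2 * 1)) :
    ((idxE M e α).1 h).1.val = (α.1 h).1.val ∧ ((idxE M e α).1 h).2 = (α.1 h).2 := ⟨rfl, rfl⟩

theorem paux_eq {A : Type} [CommRing A] (W : ℕ → WeierstrassCurve A) (M : ℕ) (e : ℕ → ℕ)
    (c : Idx 1 M 1 (fun _ => e 0) → A) (lam : ℕ → Bool) (X Ψ : ℕ → A) :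
    Paux W 1 M 1 e (fun α => c (idxE M e α)) lam X Ψ = Paux W 1 M 1 (fun _ => e 0) c lam X Ψ := by
  rw [Paux, Paux]
  refine Fintype.sum_equiv (idxE M e) _ _ fun α => ?_
  have h1 : ∀ h : Fin (2 * 1), lawV W 1 e lam X Ψ h.val = lawV W 1 (fun _ => e 0) lam X Ψ h.val := by
    intro h
    rw [lawV, lawV, div_two h.isLt]
  simp only [h1]
  rfl

/-- **AUXC** in the form of `Helper42.SG.GoalsG` -/
theorem auxc : Pool.Agent.Helper42.SG.AUXC := by
  intro K _ _ W k0 D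
  obtain ⟨C, B, hB, hC, h⟩ := auxc' K W D (128 * D * (k0 + 1) ^ 2 + 1) (k0 + 1)
    (Nat.succ_pos k0) (Nat.le_succ _)
  refine ⟨128 * D * (k0 + 1) ^ 2 + 1, C, B, Nat.succ_pos _, hB, hC, fun F e hF hFD => ?_⟩
  set M := 128 * D * (k0 + 1) ^ 2 + 1 with hM
  obtain ⟨c, hc0, hci, hch, hk⟩ := h (e 0) F hF hFD
  refine ⟨fun α => c (idxE M e α), ?_, fun α => hci _, fun α => hch _, ?_⟩
  · intro h0
    apply hc0
    funext α
    have h1 := congrFun h0 ((idxE M e).symm α)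
    simp only [Equiv.apply_symm_apply] at h1
    exact h1
  · intro v A _ _ N hN X Ψ a s b h1 h2 h3 h4 h5 h6 h7 lam
    have h8 : aeval (pr (X 2) (X 3)) F = 0 := by
      rw [← h7]
      congr 1
      refine congrArg _ ?_
      funext i
      fin_cases i
      · rfl
      · rfl
    have k1 := hk v A N hN X Ψ a s b h1 h8 h2 h3 h4 h5 (fun α => by
      have := h6 ((idxE M e).symm α)
      simpa only [Equiv.apply_symm_apply] using this) lam
    rw [← paux_eq (mapW A W) M e (fun α => algebraMap K A (c α)) lam X Ψ] at k1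
    refine hN.mono _ _ _ k1 ?_
    have a0 := h2 0 (by norm_num)
    have a1 := h2 1 (by norm_num)
    have a2 := h2 2 (by norm_num)
    have a3 := h2 3 (by norm_num)
    have hs : 0 ≤ s := (v.nonneg _).trans (h6 ((idxE M e).symm (⟨fun _ => ⟨⟨0, by positivity⟩,
      ⟨0, Nat.succ_pos _⟩⟩, fun _ => 0⟩)))
    have hb : 0 ≤ b := zero_le_one.trans h3
    have hBv : 0 ≤ B v := zero_le_one.trans (hB.one_le v)
    have hsq : sq 1 e = 4 ^ e 0 := by
      rw [Pool.Agent.Helper42.SG.sq, Finset.sum_range_one]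
    rw [hsq]
    have hmin : 1 ≤ min (a 0) (a 1) := le_min a0 a1
    have hkey : keyC M (k0 + 1) (e 0) a ≤ keyBG 1 M 1 k0 e a := by
      rw [keyC, keyBG, Finset.prod_range_one]
      simp only [mul_zero, mul_one, zero_add, pow_one]
      have p1 : 0 ≤ (a 0 * a 1) ^ (2 * 4 ^ e 0 * M + 4 ^ e 0) * (a 2 * a 3) ^ (2 * M) := by
        positivity
      have p2 : (min (a 0) (a 1)) ^ (k0 * 4 ^ e 0) ≤ (min (a 0) (a 1)) ^ ((k0 + 1) * 4 ^ e 0) :=
        pow_le_pow_right₀ hmin (Nat.mul_le_mul_right _ (Nat.le_succ _))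
      have p3 : 0 < (min (a 0) (a 1)) ^ (k0 * 4 ^ e 0) := pow_pos (zero_lt_one.trans_le hmin) _
      have p4 : 1 ≤ a 2 * a 3 := one_le_mul_of_one_le_of_one_le a2 a3
      calc (a 0 * a 1) ^ (2 * 4 ^ e 0 * M + 4 ^ e 0) * (a 2 * a 3) ^ (2 * M) /
            (min (a 0) (a 1)) ^ ((k0 + 1) * 4 ^ e 0)
          ≤ (a 0 * a 1) ^ (2 * 4 ^ e 0 * M + 4 ^ e 0) * (a 2 * a 3) ^ (2 * M) /
            (min (a 0) (a 1)) ^ (k0 * 4 ^ e 0) := div_le_div_of_nonneg_left p1 p3 p2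
        _ ≤ _ := le_mul_of_one_le_right (div_nonneg p1 p3.le) p4
    have hfin := mul_le_mul_of_nonneg_left hkey
      (show 0 ≤ s * b ^ 4 * B v ^ 4 ^ e 0 by positivity)
    simpa only [mul_one] using hfin

end Pool.Agent.Helper77.SGC
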