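import Pool.Agent.Helper77.SGC.Goals

/-!
Project SG (MP_a41896_nt), part 2, module AUXC: the conditions can be solved (helper77).
-/

set_option autoImplicit false

open MvPolynomial

namespace Pool.Agent.Helper77.SGC

open WeierstrassCurve Height
open Pool.Agent.Helper29.BL Pool.Agent.Helper92.Ru Pool.Agent.Helper42.SG

noncomputable section

/-! ## Polynomials in two variables -/

/-- the exponent `(i, j)` -/
def fs (i j : ℕ) : Fin 2 →₀ ℕ := Finsupp.single 0 i + Finsupp.single 1 j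

theorem fs_zero (i j : ℕ) : fs i j 0 = i := by simp [fs]

theorem fs_one (i j : ℕ) : fs i j 1 = j := by simp [fs]

theorem fs_ext {s : Fin 2 →₀ ℕ} {i j : ℕ} (h0 : s 0 = i) (h1 : s 1 = j) : s = fs i j := by
  ext k
  fin_cases k
  · show s 0 = fs i j 0
    rw [fs_zero, h0]
  · show s 1 = fs i j 1
    rw [fs_one, h1]

theorem fs_inj {i j i' j' : ℕ} : fs i j = fs i' j' ↔ i = i' ∧ j = j' := by
  constructor
  · intro h
    have h0 := DFunLike.congr_fun h 0
    have h1 := DFunLike.congr_fun h 1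
    rw [fs_zero, fs_zero] at h0
    rw [fs_one, fs_one] at h1
    exact ⟨h0, h1⟩
  · rintro ⟨rfl, rfl⟩
    rfl

theorem fs_le {i j i' j' : ℕ} : fs i j ≤ fs i' j' ↔ i ≤ i' ∧ j ≤ j' := by
  constructor
  · intro h
    have h0 := h 0
    have h1 := h 1
    rw [fs_zero, fs_zero] at h0
    rw [fs_one, fs_one] at h1
    exact ⟨h0, h1⟩
  · rintro ⟨h0, h1⟩ k
    fin_cases k
    · show fs i j 0 ≤ fs i' j' 0
      rwa [fs_zero, fs_zero]
    · show fs i j 1 ≤ fs i' j' 1
      rwa [fs_one, fs_one]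

theorem fs_sub {i j i' j' : ℕ} : fs i j - fs i' j' = fs (i - i') (j - j') := by
  refine fs_ext ?_ ?_
  · rw [Finsupp.tsub_apply, fs_zero, fs_zero]
  · rw [Finsupp.tsub_apply, fs_one, fs_one]

variable {K : Type} [Field K]

theorem mono_eq (a : K) (i j : ℕ) :
    (C a * (X 0 ^ i * X 1 ^ j) : MvPolynomial (Fin 2) K) = monomial (fs i j) a := by
  rw [X_pow_eq_monomial, X_pow_eq_monomial, monomial_mul, one_mul, C_mul_monomial, mul_one]
  rfl

theorem coeff_mul_mono (p : MvPolynomial (Fin 2) K) (a : K) (g g' x y : ℕ) :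
    coeff (fs g g') (p * (C a * (X 0 ^ x * X 1 ^ y))) =
      if x ≤ g ∧ y ≤ g' then coeff (fs (g - x) (g' - y)) p * a else 0 := by
  rw [mono_eq, coeff_mul_monomial', fs_sub]
  by_cases h : x ≤ g ∧ y ≤ g'
  · rw [if_pos (fs_le.mpr h), if_pos h]
  · rw [if_neg (fun h' => h (fs_le.mp h')), if_neg h]

theorem coeff_mono (a : K) (g g' x y : ℕ) :
    coeff (fs g g') (C a * (X 0 ^ x * X 1 ^ y) : MvPolynomial (Fin 2) K) =
      if x = g ∧ y = g' then a else 0 := by
  rw [mono_eq, coeff_monomial]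
  by_cases h : x = g ∧ y = g'
  · rw [if_pos (fs_inj.mpr h), if_pos h]
  · rw [if_neg (fun h' => h (fs_inj.mp h')), if_neg h]

theorem coeff_big {D : ℕ} {f : MvPolynomial (Fin 2) K} (hf : ∀ i, f.degreeOf i ≤ D) {x y : ℕ}
    (h : D < x ∨ D < y) : coeff (fs x y) f = 0 := by
  by_contra hne
  have hmem : fs x y ∈ f.support := mem_support_iff.mpr hne
  rcases h with h | h
  · have h1 := (monomial_le_degreeOf 0 hmem).trans (hf 0)
    rw [fs_zero] at h1
    omega
  · have h1 := (monomial_le_degreeOf 1 hmem).trans (hf 1)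
    rw [fs_one] at h1
    omega

/-- the coefficients of a sum over a box -/
theorem coeff_box (n : ℕ) (F : ℕ → ℕ → K) (g g' : ℕ) :
    coeff (fs g g') (∑ x ∈ Finset.range n, ∑ y ∈ Finset.range n,
      C (F x y) * (X 0 ^ x * X 1 ^ y) : MvPolynomial (Fin 2) K) =
      if g < n ∧ g' < n then F g g' else 0 := by
  rw [coeff_sum]
  simp only [coeff_sum, coeff_mono]
  by_cases h : g < n ∧ g' < n
  · rw [if_pos h, Finset.sum_eq_single g, Finset.sum_eq_single g', if_pos ⟨rfl, rfl⟩]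
    · intro y _ hy
      rw [if_neg (fun h' => hy h'.2)]
    · intro h'
      exact absurd (Finset.mem_range.mpr h.2) h'
    · intro x _ hx
      refine Finset.sum_eq_zero fun y _ => ?_
      rw [if_neg (fun h' => hx h'.1)]
    · intro h'
      exact absurd (Finset.mem_range.mpr h.1) h'
  · rw [if_neg h]
    refine Finset.sum_eq_zero fun x hx => Finset.sum_eq_zero fun y hy => ?_
    rw [if_neg]
    rintro ⟨rfl, rfl⟩
    exact h ⟨Finset.mem_range.mp hx, Finset.mem_range.mp hy⟩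

/-- the same for sums over `Fin n` -/
theorem coeff_box' (n : ℕ) (F : Fin n → Fin n → K) (x y : Fin n) :
    coeff (fs x.val y.val) (∑ x : Fin n, ∑ y : Fin n,
      C (F x y) * (X 0 ^ x.val * X 1 ^ y.val) : MvPolynomial (Fin 2) K) = F x y := by
  rw [coeff_sum]
  simp only [coeff_sum, coeff_mono]
  rw [Finset.sum_eq_single x, Finset.sum_eq_single y, if_pos ⟨rfl, rfl⟩]
  · intro y' _ hy
    rw [if_neg (fun h' => hy (Fin.ext h'.2))]
  · intro h'
    exact absurd (Finset.mem_univ _) h'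
  · intro x' _ hx
    refine Finset.sum_eq_zero fun y _ => ?_
    rw [if_neg (fun h' => hx (Fin.ext h'.1))]
  · intro h'
    exact absurd (Finset.mem_univ _) h'

/-! ## Index types -/

/-- the conditions -/
abbrev TT (k q : ℕ) : Type := Bool × Bool × Fin 2 × Fin 2 × Fin (k * q) × Fin (k * q)

/-- the equations -/
abbrev Row (M k q : ℕ) : Type := TT k q × Fin (2 * M + 1) × Fin (2 * M + 1)

/-- the unknowns -/
abbrev Col (M k e D : ℕ) : Type :=
  Idx 1 M 1 (fun _ => e) ⊕ TT k (4 ^ e) × Fin (2 * M + 1 - D) × Fin (2 * M + 1 - D)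

theorem card_idx (M e : ℕ) : Fintype.card (Idx 1 M 1 (fun _ => e)) = (4 ^ e * (M + 1)) ^ 2 := by
  rw [Fintype.card_prod, Fintype.card_pi, Fintype.card_pi]
  simp [Fintype.card_prod, Fintype.card_fin]

theorem card_TT (k q : ℕ) : Fintype.card (TT k q) = 16 * (k * q) ^ 2 := by
  simp only [Fintype.card_prod, Fintype.card_fin, Fintype.card_bool]
  ring

theorem card_row (M k q : ℕ) : Fintype.card (Row M k q) = 16 * (k * q) ^ 2 * (2 * M + 1) ^ 2 := by
  rw [Fintype.card_prod, card_TT, Fintype.card_prod, Fintype.card_fin]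
  ring

theorem card_col (M k e D : ℕ) : Fintype.card (Col M k e D) =
    (4 ^ e * (M + 1)) ^ 2 + 16 * (k * 4 ^ e) ^ 2 * (2 * M + 1 - D) ^ 2 := by
  rw [Fintype.card_sum, card_idx, Fintype.card_prod, card_TT, Fintype.card_prod, Fintype.card_fin]
  ring

theorem card_ineq {M k e D : ℕ} (hk : 1 ≤ k) (hM : 128 * D * k ^ 2 ≤ M) :
    2 * Fintype.card (Row M k (4 ^ e)) + (4 ^ e * (M + 1)) ^ 2 ≤
      2 * Fintype.card (Col M k e D) := by
  rw [card_row, card_col]
  have hk2 : 1 ≤ k ^ 2 := Nat.one_le_pow _ _ hk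
  have hDM : D ≤ M := by nlinarith
  obtain ⟨n, hn⟩ : ∃ n, 2 * M + 1 = n + D := ⟨2 * M + 1 - D, by omega⟩
  have h1 : 2 * M + 1 - D = n := by omega
  rw [h1, hn]
  set q := 4 ^ e
  have h2 : 16 * k ^ 2 * (n + D) ^ 2 ≤ 16 * k ^ 2 * n ^ 2 + 16 * k ^ 2 * (2 * D * (2 * M + 1)) := by
    rw [hn]
    nlinarith [Nat.zero_le (16 * k ^ 2 * D ^ 2)]
  have h3 : 2 * (16 * k ^ 2 * (2 * D * (2 * M + 1))) ≤ (M + 1) ^ 2 := by
    nlinarith [Nat.mul_le_mul_right (2 * M + 1) hM]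
  have h4 : 2 * (16 * k ^ 2 * (n + D) ^ 2) ≤ 2 * (16 * k ^ 2 * n ^ 2) + (M + 1) ^ 2 := by omega
  have h5 := Nat.mul_le_mul_left (q ^ 2) h4
  have e1 : 2 * (16 * (k * q) ^ 2 * (n + D) ^ 2) = q ^ 2 * (2 * (16 * k ^ 2 * (n + D) ^ 2)) := by
    ring
  have e2 : 2 * ((q * (M + 1)) ^ 2 + 16 * (k * q) ^ 2 * n ^ 2)
      = q ^ 2 * (2 * (16 * k ^ 2 * n ^ 2) + (M + 1) ^ 2) + (q * (M + 1)) ^ 2 := by ring
  rw [e1, e2]
  exact Nat.add_le_add_right h5 _

/-! ## Houses -/

theorem natCast_le (v : AbsoluteValue K ℝ) (n : ℕ) : v (n : K) ≤ n := by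
  induction n with
  | zero => simp
  | succ n ih =>
    rw [Nat.cast_succ, Nat.cast_succ]
    refine (v.add_le _ _).trans ?_
    rw [map_one]
    linarith

/-- the entry of the row `(t, g, g')` at `α` -/
def ent (M e : ℕ) (E : K) (G G' : Bool → ℕ → Fin 2 → ℕ → ℕ → K) (l l' : Bool) (μ μ' : Fin 2)
    (j j' g g' : ℕ) (α : Idx 1 M 1 (fun _ => e)) : K :=
  E * (sh G l μ j g (α.1 ⟨0, by norm_num⟩).1.val (α.1 ⟨0, by norm_num⟩).2.val *
    sh G' l' μ' j' g' (α.1 ⟨1, by norm_num⟩).1.val (α.1 ⟨1, by norm_num⟩).2.val)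

theorem cf_eq (M e : ℕ) (E : K) (G G' : Bool → ℕ → Fin 2 → ℕ → ℕ → K)
    (c : Idx 1 M 1 (fun _ => e) → K) (l l' : Bool) (μ μ' : Fin 2) (j j' g g' : ℕ) :
    E * cf M e G G' c l l' μ μ' j j' g g' = ∑ α, ent M e E G G' l l' μ μ' j j' g g' α * c α := by
  rw [cf, Finset.mul_sum]
  refine Finset.sum_congr rfl fun α _ => ?_
  rw [ent]
  ring

section nf

variable {W : Affine K} {B : AbsoluteValue K ℝ → ℝ} {D e M : ℕ}
  {G : Bool → ℕ → Fin 2 → ℕ → ℕ → K}

theorem sh_int (h : Arr W B D e M G) (l : Bool) (μ : Fin 2) (j g i m : ℕ) (hm : m ≤ M) :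
    IsIntegral ℤ ((D : K) ^ (4 ^ e * M) * sh G l μ j g i m) := by
  rw [sh]
  by_cases hi : i ≤ j
  · rw [if_pos hi]
    exact h.int l m hm μ (j - i) g
  · rw [if_neg hi, mul_zero]
    exact isIntegral_zero

theorem sh_bd (h : Arr W B D e M G) (hB : ∀ v, 1 ≤ B v) (l : Bool) (μ : Fin 2) (j g i m : ℕ)
    (hm : m ≤ M) (v : AbsoluteValue K ℝ) : v (sh G l μ j g i m) ≤ B v ^ (4 ^ e * M) := by
  rw [sh]
  by_cases hi : i ≤ j
  · rw [if_pos hi]
    exact h.bd l m hm v μ (j - i) g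
  · rw [if_neg hi, map_zero]
    exact pow_nonneg (zero_le_one.trans (hB v)) _

theorem ent_int {W' : Affine K} {B' : AbsoluteValue K ℝ → ℝ} {D' : ℕ}
    {G' : Bool → ℕ → Fin 2 → ℕ → ℕ → K} (h : Arr W B D e M G) (h' : Arr W' B' D' e M G')
    (l l' : Bool) (μ μ' : Fin 2) (j j' g g' : ℕ) (α : Idx 1 M 1 (fun _ => e)) :
    IsIntegral ℤ (ent M e ((D : K) ^ (4 ^ e * M) * (D' : K) ^ (4 ^ e * M)) G G' l l' μ μ' j j'
      g g' α) := by
  have e1 : ent M e ((D : K) ^ (4 ^ e * M) * (D' : K) ^ (4 ^ e * M)) G G' l l' μ μ' j j' g g' α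
      = ((D : K) ^ (4 ^ e * M) * sh G l μ j g (α.1 ⟨0, by norm_num⟩).1.val
          (α.1 ⟨0, by norm_num⟩).2.val) *
        ((D' : K) ^ (4 ^ e * M) * sh G' l' μ' j' g' (α.1 ⟨1, by norm_num⟩).1.val
          (α.1 ⟨1, by norm_num⟩).2.val) := by
    rw [ent]
    ring
  rw [e1]
  exact (sh_int h l μ j g _ _ (Nat.lt_succ_iff.mp (α.1 ⟨0, by norm_num⟩).2.isLt)).mul
    (sh_int h' l' μ' j' g' _ _ (Nat.lt_succ_iff.mp (α.1 ⟨1, by norm_num⟩).2.isLt))

theorem ent_bd {W' : Affine K} {B' : AbsoluteValue K ℝ → ℝ} {D' : ℕ}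
    {G' : Bool → ℕ → Fin 2 → ℕ → ℕ → K} (h : Arr W B D e M G) (h' : Arr W' B' D' e M G')
    (hB : ∀ v, 1 ≤ B v) (hB' : ∀ v, 1 ≤ B' v)
    (l l' : Bool) (μ μ' : Fin 2) (j j' g g' : ℕ) (α : Idx 1 M 1 (fun _ => e))
    (v : AbsoluteValue K ℝ) :
    v (ent M e ((D : K) ^ (4 ^ e * M) * (D' : K) ^ (4 ^ e * M)) G G' l l' μ μ' j j' g g' α) ≤
      (D * D' * (B v * B' v)) ^ (4 ^ e * M) := by
  have b0 : 0 ≤ B v := zero_le_one.trans (hB v)
  have b1 : 0 ≤ B' v := zero_le_one.trans (hB' v)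
  rw [ent, map_mul, map_mul, map_mul, map_pow, map_pow]
  have e1 : ((D : ℝ) * D' * (B v * B' v)) ^ (4 ^ e * M) = ((D : ℝ) ^ (4 ^ e * M) *
      (D' : ℝ) ^ (4 ^ e * M)) * (B v ^ (4 ^ e * M) * B' v ^ (4 ^ e * M)) := by
    rw [mul_pow, mul_pow, mul_pow]
  rw [e1]
  refine mul_le_mul (mul_le_mul (pow_le_pow_left₀ (v.nonneg _) (natCast_le v D) _)
    (pow_le_pow_left₀ (v.nonneg _) (natCast_le v D') _) (by positivity) (by positivity))
    (mul_le_mul (sh_bd h hB l μ j g _ _ (Nat.lt_succ_iff.mp (α.1 ⟨0, by norm_num⟩).2.isLt) v)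
      (sh_bd h' hB' l' μ' j' g' _ _ (Nat.lt_succ_iff.mp (α.1 ⟨1, by norm_num⟩).2.isLt) v)
      (v.nonneg _) (by positivity)) (by positivity) (by positivity)

end nf

/-! ## The equations -/

/-- the matrix, with entries in `K` -/
def aK (M e D k : ℕ) (E r : K) (G G' : Bool → ℕ → Fin 2 → ℕ → ℕ → K)
    (f : MvPolynomial (Fin 2) K) (R : Row M k (4 ^ e)) : Col M k e D → K
  | Sum.inl α => ent M e E G G' R.1.1 R.1.2.1 R.1.2.2.1 R.1.2.2.2.1
      (N0 M e - 2 * R.1.2.2.1.val - R.1.2.2.2.2.1.val)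
      (N0 M e - 2 * R.1.2.2.2.1.val - R.1.2.2.2.2.2.val) R.2.1.val R.2.2.val α
  | Sum.inr p => if R.1 = p.1 then
      (if p.2.1.val ≤ R.2.1.val ∧ p.2.2.val ≤ R.2.2.val then
        -(r * coeff (fs (R.2.1.val - p.2.1.val) (R.2.2.val - p.2.2.val)) f) else 0) else 0

/-- the quotient polynomials -/
def hh (M e D k : ℕ) (ξ : Col M k e D → K) (t : TT k (4 ^ e)) : MvPolynomial (Fin 2) K :=
  ∑ x : Fin (2 * M + 1 - D), ∑ y : Fin (2 * M + 1 - D),
    C (ξ (Sum.inr (t, x, y))) * (X 0 ^ x.val * X 1 ^ y.val)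

/-- the polynomial identity from the equations -/
theorem identity {M e D k : ℕ} {E r : K} {G G' : Bool → ℕ → Fin 2 → ℕ → ℕ → K}
    {f : MvPolynomial (Fin 2) K} (hf : ∀ i, f.degreeOf i ≤ D) {ξ : Col M k e D → K}
    (h : ∀ R, ∑ col, aK M e D k E r G G' f R col * ξ col = 0) (t : TT k (4 ^ e)) :
    C E * (∑ g ∈ Finset.range (2 * M + 1), ∑ g' ∈ Finset.range (2 * M + 1),
      C (cf M e G G' (fun α => ξ (Sum.inl α)) t.1 t.2.1 t.2.2.1 t.2.2.2.1
        (N0 M e - 2 * t.2.2.1.val - t.2.2.2.2.1.val)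
        (N0 M e - 2 * t.2.2.2.1.val - t.2.2.2.2.2.val) g g') * (X 0 ^ g * X 1 ^ g')) =
      C r * (f * hh M e D k ξ t) := by
  ext s
  obtain ⟨g, g', rfl⟩ : ∃ g g', s = fs g g' := ⟨s 0, s 1, fs_ext rfl rfl⟩
  rw [coeff_C_mul, coeff_C_mul, coeff_box, hh, Finset.mul_sum, coeff_sum]
  simp only [Finset.mul_sum, coeff_sum, coeff_mul_mono]
  by_cases hg : g < 2 * M + 1 ∧ g' < 2 * M + 1
  · rw [if_pos hg, cf_eq]
    have h1 := h (t, ⟨g, hg.1⟩, ⟨g', hg.2⟩)
    rw [Fintype.sum_sum_type] at h1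
    have h3 : ∑ p : TT k (4 ^ e) × Fin (2 * M + 1 - D) × Fin (2 * M + 1 - D),
        aK M e D k E r G G' f (t, ⟨g, hg.1⟩, ⟨g', hg.2⟩) (Sum.inr p) * ξ (Sum.inr p) =
        ∑ x : Fin (2 * M + 1 - D), ∑ y : Fin (2 * M + 1 - D),
          aK M e D k E r G G' f (t, ⟨g, hg.1⟩, ⟨g', hg.2⟩) (Sum.inr (t, x, y)) *
            ξ (Sum.inr (t, x, y)) := by
      rw [Fintype.sum_prod_type, Finset.sum_eq_single t, Fintype.sum_prod_type]
      · intro t' _ ht'
        refine Finset.sum_eq_zero fun p _ => ?_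
        rw [aK, if_neg (fun h' => ht' h'.symm), zero_mul]
      · intro h'
        exact absurd (Finset.mem_univ _) h'
    have h2 : ∑ x : Fin (2 * M + 1 - D), ∑ y : Fin (2 * M + 1 - D),
          aK M e D k E r G G' f (t, ⟨g, hg.1⟩, ⟨g', hg.2⟩) (Sum.inr (t, x, y)) *
            ξ (Sum.inr (t, x, y)) =
          - ∑ x : Fin (2 * M + 1 - D), ∑ y : Fin (2 * M + 1 - D),
            r * (if x.val ≤ g ∧ y.val ≤ g' then
              coeff (fs (g - x.val) (g' - y.val)) f * ξ (Sum.inr (t, x, y)) else 0) := by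
      rw [← Finset.sum_neg_distrib]
      refine Finset.sum_congr rfl fun x _ => ?_
      rw [← Finset.sum_neg_distrib]
      refine Finset.sum_congr rfl fun y _ => ?_
      rw [aK, if_pos rfl]
      by_cases hxy : x.val ≤ g ∧ y.val ≤ g'
      · rw [if_pos hxy, if_pos hxy]
        ring
      · rw [if_neg hxy, if_neg hxy]
        ring
    rw [h3, h2] at h1
    exact add_neg_eq_zero.mp h1
  · rw [if_neg hg, mul_zero]
    symm
    refine Finset.sum_eq_zero fun x _ => Finset.sum_eq_zero fun y _ => ?_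
    by_cases hxy : x.val ≤ g ∧ y.val ≤ g'
    · rw [if_pos hxy, coeff_big hf, zero_mul, mul_zero]
      have hx := x.isLt
      have hy := y.isLt
      omega
    · rw [if_neg hxy, mul_zero]

theorem num_est {c1 K2 b0 H q : ℝ} {M D ρ : ℕ} (hc1 : 1 ≤ c1) (hK2 : 1 ≤ K2) (hb0 : 1 ≤ b0)
    (hH : 1 ≤ H) (hq : 1 ≤ q) {n : ℕ} (hn : (n : ℝ) = q) {N : ℝ} (hN0 : 0 ≤ N)
    (hN : N ≤ q ^ 2 * K2) :
    c1 * (c1 * N * (b0 ^ (n * M) * H ^ D)) ^ ρ ≤
      Real.exp ((Real.log c1 + ρ * (Real.log (c1 * K2) + 2 + M * Real.log b0 + D)) *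
        (q + Real.log H)) := by
  have lc : 0 ≤ Real.log c1 := Real.log_nonneg hc1
  have lb : 0 ≤ Real.log b0 := Real.log_nonneg hb0
  have lH : 0 ≤ Real.log H := Real.log_nonneg hH
  have lck : 0 ≤ Real.log (c1 * K2) := Real.log_nonneg (one_le_mul_of_one_le_of_one_le hc1 hK2)
  have p1 : 0 < c1 := zero_lt_one.trans_le hc1
  have p2 : 0 < b0 := zero_lt_one.trans_le hb0
  have p3 : 0 < H := zero_lt_one.trans_le hH
  have p4 : 0 < q := zero_lt_one.trans_le hq
  have p5 : 0 < K2 := zero_lt_one.trans_le hK2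
  have hqe : q ≤ Real.exp q := by linarith [Real.add_one_le_exp q]
  have e1 : c1 * N * (b0 ^ (n * M) * H ^ D) ≤
      Real.exp (Real.log (c1 * K2) + 2 * q + q * M * Real.log b0 + D * Real.log H) := by
    rw [Real.exp_add, Real.exp_add, Real.exp_add, Real.exp_log (mul_pos p1 p5)]
    have e2 : Real.exp (q * M * Real.log b0) = b0 ^ (n * M) := by
      rw [← hn, ← Nat.cast_mul, ← Real.log_pow, Real.exp_log (pow_pos p2 _)]
    have e3 : Real.exp (D * Real.log H) = H ^ D := by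
      rw [← Real.log_pow, Real.exp_log (pow_pos p3 _)]
    have e4 : q ^ 2 ≤ Real.exp (2 * q) := by
      rw [two_mul, Real.exp_add, pow_two]
      exact mul_le_mul hqe hqe p4.le (Real.exp_pos _).le
    rw [e2, e3]
    calc c1 * N * (b0 ^ (n * M) * H ^ D) ≤ c1 * (q ^ 2 * K2) * (b0 ^ (n * M) * H ^ D) := by
          refine mul_le_mul_of_nonneg_right (mul_le_mul_of_nonneg_left hN p1.le) (by positivity)
      _ = c1 * K2 * q ^ 2 * b0 ^ (n * M) * H ^ D := by ring
      _ ≤ c1 * K2 * Real.exp (2 * q) * b0 ^ (n * M) * H ^ D := by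
          refine mul_le_mul_of_nonneg_right (mul_le_mul_of_nonneg_right
            (mul_le_mul_of_nonneg_left e4 (by positivity)) (by positivity)) (by positivity)
  have e5 : Real.log (c1 * K2) + 2 * q + q * M * Real.log b0 + D * Real.log H ≤
      (Real.log (c1 * K2) + 2 + M * Real.log b0 + D) * (q + Real.log H) := by
    have t1 : Real.log (c1 * K2) ≤ Real.log (c1 * K2) * (q + Real.log H) :=
      le_mul_of_one_le_right lck (by linarith)
    have t2 : 2 * q ≤ 2 * (q + Real.log H) := by linarith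
    have t3 : q * M * Real.log b0 ≤ M * Real.log b0 * (q + Real.log H) := by
      have : 0 ≤ M * Real.log b0 * Real.log H := by positivity
      nlinarith
    have t4 : D * Real.log H ≤ D * (q + Real.log H) :=
      mul_le_mul_of_nonneg_left (by linarith) (Nat.cast_nonneg D)
    nlinarith
  have hnn : 0 ≤ c1 * N * (b0 ^ (n * M) * H ^ D) := by positivity
  calc c1 * (c1 * N * (b0 ^ (n * M) * H ^ D)) ^ ρ
      ≤ c1 * (Real.exp ((Real.log (c1 * K2) + 2 + M * Real.log b0 + D) *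
          (q + Real.log H))) ^ ρ := by
        refine mul_le_mul_of_nonneg_left (pow_le_pow_left₀ hnn (e1.trans ?_) ρ) p1.le
        exact Real.exp_le_exp.mpr e5
    _ = Real.exp (Real.log c1 + ρ * ((Real.log (c1 * K2) + 2 + M * Real.log b0 + D) *
          (q + Real.log H))) := by
        rw [Real.exp_add, Real.exp_log p1, ← Real.exp_nat_mul]
    _ ≤ _ := by
        refine Real.exp_le_exp.mpr ?_
        have t5 : Real.log c1 ≤ Real.log c1 * (q + Real.log H) :=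
          le_mul_of_one_le_right lc (by linarith)
        nlinarith

theorem one_le_PH {K : Type} [Field K] [NumberField K] {σ : Type} (p : MvPolynomial σ K) :
    1 ≤ PH p := Height.one_le_mulHeight _

/-- **SIEC** -/
theorem siec (h0 : SCAL) (h1 : SIGR) (h2 : HOUS) : SIEC := by
  intro K _ _ W B0 B1 D0 D1 hB0 hB1 hD0 hD1 D M k0 hk hM
  obtain ⟨c1, hc1, hS⟩ := h1 K
  have hd0 : (1 : ℝ) ≤ D0 := by exact_mod_cast hD0
  have hd1 : (1 : ℝ) ≤ D1 := by exact_mod_cast hD1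
  obtain ⟨b0, hb0, hb⟩ := h2 K (fun v => D0 * D1 * (B0 v * B1 v)) (fun v =>
    one_le_mul_of_one_le_of_one_le (one_le_mul_of_one_le_of_one_le hd0 hd1)
      (one_le_mul_of_one_le_of_one_le (hB0 v) (hB1 v)))
  obtain ⟨K2, hK2d⟩ : ∃ K2 : ℝ, K2 = (((M + 1) ^ 2 + 16 * k0 ^ 2 * (2 * M + 1) ^ 2 : ℕ) : ℝ) :=
    ⟨_, rfl⟩
  have hK2 : 1 ≤ K2 := by
    have : 1 ≤ (M + 1) ^ 2 + 16 * k0 ^ 2 * (2 * M + 1) ^ 2 :=
      (Nat.one_le_pow _ _ (Nat.succ_pos M)).trans (Nat.le_add_right _ _)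
    rw [hK2d]
    exact_mod_cast this
  have lc : 0 ≤ Real.log c1 := Real.log_nonneg hc1
  have lb : 0 ≤ Real.log b0 := Real.log_nonneg hb0
  have lck : 0 ≤ Real.log (c1 * K2) := Real.log_nonneg (one_le_mul_of_one_le_of_one_le hc1 hK2)
  refine ⟨Real.log c1 + ((128 * k0 ^ 2 : ℕ) : ℝ) * (Real.log (c1 * K2) + 2 + M * Real.log b0 +
    (((D + 1) ^ 2 + 1 : ℕ) : ℝ)), by positivity, ?_⟩
  intro e G G' hG hG' f hf0 hfD
  obtain ⟨r, hr0, hr⟩ := h0 K D f hf0 hfD
  have hH : 1 ≤ PH f := one_le_PH f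
  set E : K := (D0 : K) ^ (4 ^ e * M) * (D1 : K) ^ (4 ^ e * M) with hE
  have hE0 : E ≠ 0 := mul_ne_zero (pow_ne_zero _ (Nat.cast_ne_zero.mpr hD0.ne'))
    (pow_ne_zero _ (Nat.cast_ne_zero.mpr hD1.ne'))
  have hq1 : 1 ≤ 4 ^ e := Nat.one_le_pow _ _ (by norm_num)
  have hint : ∀ R col, IsIntegral ℤ (aK M e D k0 E r G G' f R col) := by
    rintro R (α | p)
    · exact ent_int hG hG' _ _ _ _ _ _ _ _ α
    · rw [aK]
      split_ifs
      · exact (hr _).1.neg
      · exact isIntegral_zero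
      · exact isIntegral_zero
  have hA1 : (1 : ℝ) ≤ PH f ^ ((D + 1) ^ 2 + 1) := one_le_pow₀ hH
  have hA2 : (1 : ℝ) ≤ b0 ^ (4 ^ e * M) := one_le_pow₀ hb0
  have hhouse : ∀ R col, NumberField.house (aK M e D k0 E r G G' f R col) ≤
      b0 ^ (4 ^ e * M) * PH f ^ ((D + 1) ^ 2 + 1) := by
    rintro R (α | p)
    · refine (hb _ _ fun v => ent_bd hG hG' hB0 hB1 _ _ _ _ _ _ _ _ α v).trans ?_
      exact le_mul_of_one_le_right (by positivity) hA1
    · rw [aK]
      split_ifs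
      · have e1 : ∀ x : K, NumberField.house (-x) = NumberField.house x := by
          intro x
          rw [NumberField.house, NumberField.house, map_neg, norm_neg]
        rw [e1]
        exact (hr _).2.trans (le_mul_of_one_le_left (by positivity) hA2)
      · have e2 : NumberField.house (0 : K) = 0 := by
          rw [NumberField.house, map_zero, norm_zero]
        rw [e2]
        positivity
      · have e2 : NumberField.house (0 : K) = 0 := by
          rw [NumberField.house, map_zero, norm_zero]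
        rw [e2]
        positivity
  let a : Matrix (Row M k0 (4 ^ e)) (Col M k0 e D) (NumberField.RingOfIntegers K) :=
    Matrix.of fun R col => ⟨aK M e D k0 E r G G' f R col, hint R col⟩
  have hci := card_ineq (e := e) hk hM
  have hqM : 0 < (4 ^ e * (M + 1)) ^ 2 := by positivity
  have hlt : Fintype.card (Row M k0 (4 ^ e)) < Fintype.card (Col M k0 e D) := by omega
  have hρ : Fintype.card (Row M k0 (4 ^ e)) ≤
      128 * k0 ^ 2 * (Fintype.card (Col M k0 e D) - Fintype.card (Row M k0 (4 ^ e))) := by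
    have t1 : (4 ^ e * (M + 1)) ^ 2 ≤
        2 * (Fintype.card (Col M k0 e D) - Fintype.card (Row M k0 (4 ^ e))) := by omega
    have t2 : Fintype.card (Row M k0 (4 ^ e)) ≤ 64 * k0 ^ 2 * (4 ^ e * (M + 1)) ^ 2 := by
      rw [card_row]
      have t3 : (2 * M + 1) ^ 2 ≤ 4 * (M + 1) ^ 2 := by nlinarith
      calc 16 * (k0 * 4 ^ e) ^ 2 * (2 * M + 1) ^ 2
          ≤ 16 * (k0 * 4 ^ e) ^ 2 * (4 * (M + 1) ^ 2) := Nat.mul_le_mul_left _ t3
        _ = 64 * k0 ^ 2 * (4 ^ e * (M + 1)) ^ 2 := by ring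
    calc Fintype.card (Row M k0 (4 ^ e)) ≤ 64 * k0 ^ 2 * (4 ^ e * (M + 1)) ^ 2 := t2
      _ ≤ 64 * k0 ^ 2 *
          (2 * (Fintype.card (Col M k0 e D) - Fintype.card (Row M k0 (4 ^ e)))) :=
        Nat.mul_le_mul_left _ t1
      _ = _ := by ring
  obtain ⟨ξ, hξ0, hξ, hξh⟩ := hS (Row M k0 (4 ^ e)) (Col M k0 e D) a
    (b0 ^ (4 ^ e * M) * PH f ^ ((D + 1) ^ 2 + 1)) (128 * k0 ^ 2)
    (one_le_mul_of_one_le_of_one_le hA2 hA1) hlt hρ (fun R col => hhouse R col)
  have heq : ∀ R, ∑ col, aK M e D k0 E r G G' f R col *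
      ((ξ col : NumberField.RingOfIntegers K) : K) = 0 := by
    intro R
    have t1 := congrFun hξ R
    have t2 := congrArg (algebraMap (NumberField.RingOfIntegers K) K) t1
    rw [Matrix.mulVec, dotProduct, Pi.zero_apply, map_zero, map_sum] at t2
    rw [← t2]
    refine Finset.sum_congr rfl fun col _ => ?_
    rw [map_mul]
    rfl
  have hid := identity (ξ := fun col => ((ξ col : NumberField.RingOfIntegers K) : K)) hfD heq
  refine ⟨fun α => ((ξ (Sum.inl α) : NumberField.RingOfIntegers K) : K), ?_, ?_, ?_, ?_⟩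
  · intro hc
    have hcα : ∀ α, ((ξ (Sum.inl α) : NumberField.RingOfIntegers K) : K) = 0 := fun α =>
      congrFun hc α
    apply hξ0
    funext col
    rcases col with α | p
    · exact NumberField.RingOfIntegers.coe_injective
        ((hcα α).trans (by rw [Pi.zero_apply, map_zero]))
    · obtain ⟨t, x, y⟩ := p
      have t1 := hid t
      have t2 : ∀ l l' μ μ' j j' g g', cf M e G G'
          (fun α => ((ξ (Sum.inl α) : NumberField.RingOfIntegers K) : K)) l l' μ μ' j j' g g'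
          = 0 := by
        intro l l' μ μ' j j' g g'
        rw [cf]
        refine Finset.sum_eq_zero fun α _ => ?_
        rw [hcα α, zero_mul]
      simp only [t2, map_zero, zero_mul, Finset.sum_const_zero, mul_zero] at t1
      have t3 : hh M e D k0 (fun col => ((ξ col : NumberField.RingOfIntegers K) : K)) t = 0 := by
        rcases mul_eq_zero.mp t1.symm with t4 | t4
        · exact absurd ((C_eq_zero).mp t4) hr0
        · exact (mul_eq_zero.mp t4).resolve_left hf0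
      have t5 := coeff_box' (2 * M + 1 - D)
        (fun x y => ((ξ (Sum.inr (t, x, y)) : NumberField.RingOfIntegers K) : K)) x y
      rw [hh] at t3
      rw [t3, coeff_zero] at t5
      exact NumberField.RingOfIntegers.coe_injective
        (t5.symm.trans (by rw [Pi.zero_apply, map_zero]))
  · intro α
    exact (ξ (Sum.inl α)).isIntegral_coe
  · intro α
    refine (hξh (Sum.inl α)).trans ?_
    have t1 : (Fintype.card (Col M k0 e D) : ℝ) ≤ ((4 : ℝ) ^ e) ^ 2 * K2 := by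
      have t2 : Fintype.card (Col M k0 e D) ≤
          (4 ^ e) ^ 2 * ((M + 1) ^ 2 + 16 * k0 ^ 2 * (2 * M + 1) ^ 2) := by
        rw [card_col]
        have t3 : (2 * M + 1 - D) ^ 2 ≤ (2 * M + 1) ^ 2 := Nat.pow_le_pow_left (by omega) 2
        calc (4 ^ e * (M + 1)) ^ 2 + 16 * (k0 * 4 ^ e) ^ 2 * (2 * M + 1 - D) ^ 2
            ≤ (4 ^ e * (M + 1)) ^ 2 + 16 * (k0 * 4 ^ e) ^ 2 * (2 * M + 1) ^ 2 :=
              Nat.add_le_add_left (Nat.mul_le_mul_left _ t3) _
          _ = _ := by ring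
      rw [hK2d]
      exact_mod_cast t2
    have t4 := num_est (M := M) (D := (D + 1) ^ 2 + 1) (ρ := 128 * k0 ^ 2) hc1 hK2 hb0 hH
      (q := (4 : ℝ) ^ e) (one_le_pow₀ (by norm_num)) (n := 4 ^ e) (by push_cast; rfl)
      (Nat.cast_nonneg _) t1
    exact t4
  · intro l l' μ μ' j j' hF
    obtain ⟨f1, f2, f3⟩ := hF
    have p1 : N0 M e - (j + 2 * μ.val) < k0 * 4 ^ e := by omega
    have p2 : N0 M e - (j' + 2 * μ'.val) < k0 * 4 ^ e := by omega
    have t1 := hid (l, l', μ, μ', ⟨N0 M e - (j + 2 * μ.val), p1⟩,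
      ⟨N0 M e - (j' + 2 * μ'.val), p2⟩)
    have j1 : N0 M e - 2 * μ.val - (N0 M e - (j + 2 * μ.val)) = j := by omega
    have j2 : N0 M e - 2 * μ'.val - (N0 M e - (j' + 2 * μ'.val)) = j' := by omega
    simp only [j1, j2] at t1
    refine ⟨C (E⁻¹ * r) * hh M e D k0 (fun col => ((ξ col : NumberField.RingOfIntegers K) : K))
      (l, l', μ, μ', ⟨N0 M e - (j + 2 * μ.val), p1⟩, ⟨N0 M e - (j' + 2 * μ'.val), p2⟩), ?_⟩
    have t2 := congrArg (fun P => C E⁻¹ * P) t1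
    rw [← mul_assoc, ← C_mul, inv_mul_cancel₀ hE0, C_1, one_mul] at t2
    rw [t2, C_mul]
    ring

end

end Pool.Agent.Helper77.SGC
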